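import Pool.Agent.W619.Y.Stm5
import Pool.Agent.W619.TW.Der
import Pool.Agent.W619.TW.Cur

/-! Project PG (owner helper619), part DESCJ: the coefficients of a section of `m K + j A` with
respect to functions on the curve `F` are sections of `m K + j A'` on the other factor. -/

set_option autoImplicit false
set_option linter.overlappingInstances false
set_option linter.unusedSectionVars false

universe u v

open FF IntermediateField Pool.Agent.W619.PQ Pool.Agent.W619.PL Pool.Agent.W619.TW
  Pool.Agent.W603.LV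

namespace Pool.Agent.W735.PG.DESCJ

section

variable {k : Type v} {L : Type u} [Field k] [CharZero k] [Field L] [Algebra k L]
  {M F : IntermediateField k L}

theorem der_sum {ι : Type*} (s : Finset ι) (f : ι → L) (D : ι → Derivation k L L) (z : L) :
    (∑ j ∈ s, f j • D j) z = ∑ j ∈ s, f j * D j z := by
  rw [← Derivation.coeFnAddMonoidHom_apply, map_sum, Finset.sum_apply]
  simp [Derivation.coeFnAddMonoidHom_apply]

/-- Every element of `L` is a quotient of elements of the ring generated by `M` and `F`. -/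
theorem frac (hsup : M ⊔ F = ⊤) (z : L) :
    ∃ a ∈ RR F M, ∃ b ∈ RR F M, b ≠ 0 ∧ z = a / b := by
  have hz : z ∈ IntermediateField.adjoin M (F : Set L) := by
    have h1 : (⊤ : IntermediateField k L) ≤
        (IntermediateField.adjoin M (F : Set L)).restrictScalars k := by
      rw [← hsup, sup_le_iff]
      constructor
      · intro y hy
        rw [mem_restrictScalars]
        exact (IntermediateField.adjoin M (F : Set L)).algebraMap_mem ⟨y, hy⟩
      · intro y hy
        rw [mem_restrictScalars]
        exact subset_adjoin M _ hy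
    exact h1 (by trivial : z ∈ (⊤ : IntermediateField k L))
  rw [IntermediateField.mem_adjoin_iff_div] at hz
  obtain ⟨a, ha, b, hb, rfl⟩ := hz
  by_cases hb0 : b = 0
  · exact ⟨0, zero_mem _, 1, one_mem _, one_ne_zero, by rw [hb0]; simp⟩
  · exact ⟨a, ha, b, hb, hb0, rfl⟩

theorem expandFin {z : L} (hz : z ∈ RR F M) : ∃ (r : ℕ) (β : Fin r → F) (p : Fin r → M),
    LinearIndependent k β ∧ z = ∑ i, (β i : L) * (p i : L) := by
  obtain ⟨s, c, hs⟩ := RR.expand hz
  refine ⟨s.card, fun i => Module.Basis.ofVectorSpace k F (s.equivFin.symm i),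
    fun i => c (s.equivFin.symm i), ?_, ?_⟩
  · exact (Module.Basis.ofVectorSpace k F).linearIndependent.comp
      (fun i => ((s.equivFin.symm i : s) : Module.Basis.ofVectorSpaceIndex k F)) (by
      intro i j h
      exact s.equivFin.symm.injective (Subtype.ext h))
  · rw [hs, ← Finset.sum_coe_sort s]
    exact (Equiv.sum_comp s.equivFin.symm (fun i : s =>
      ((Module.Basis.ofVectorSpace k F i : F) : L) * ((c i : M) : L))).symm

/-- Lower bounds for the order of an element at the Gauss extensions. -/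
theorem exists_low (hsup : M ⊔ F = ⊤) {z : L} (hz0 : z ≠ 0) :
    ∃ T : Finset M, ∀ (u : Place k M) (U : Place k L), (∀ μ : M, U.ord (μ : L) = u.ord μ) →
      (∀ β : F, U.ord (β : L) = 0) →
      (∀ (r : ℕ) (β : Fin r → F) (μ : Fin r → M) (c : ℤ), LinearIndependent k β →
        Ge U c (∑ i, (β i : L) * (μ i : L)) → ∀ i, Ge u c (μ i)) →
      ∃ s' ∈ T, s' ≠ 0 ∧ u.ord s' ≤ U.ord z := by
  classical
  obtain ⟨a, ha, b, hb, hb0, rfl⟩ := frac hsup z
  have ha0 : a ≠ 0 := by
    rintro rfl
    exact hz0 (zero_div _)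
  obtain ⟨r, β, p, -, hap⟩ := expandFin ha
  obtain ⟨r', β', q, hβ', hbq⟩ := expandFin hb
  have hq : ∃ j, q j ≠ 0 := by
    by_contra hcon
    push Not at hcon
    apply hb0
    rw [hbq]
    refine Finset.sum_eq_zero fun i _ => ?_
    rw [hcon i]; simp
  obtain ⟨j, hj⟩ := hq
  refine ⟨Finset.univ.image fun i => p i / q j, fun u U hU1 hU2 hU3 => ?_⟩
  have h1 : ∃ i, p i ≠ 0 ∧ u.ord (p i) ≤ U.ord a := by
    by_contra hcon
    push Not at hcon
    have h2 : Ge U (U.ord a + 1) a := by
      have h3 : Ge U (U.ord a + 1) (∑ i, (β i : L) * (p i : L)) := by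
        refine Ge.sum _ _ fun i _ => ?_
        by_cases hp : p i = 0
        · left; rw [hp]; simp
        · have h4 := hcon i hp
          have h5 : Ge U 0 ((β i : F) : L) := Or.inr (hU2 _).ge
          have h6 : Ge U (U.ord a + 1) ((p i : M) : L) := Or.inr (by rw [hU1]; omega)
          simpa using h5.mul h6
      rwa [← hap] at h3
    have := h2.resolve_left ha0
    omega
  obtain ⟨i, hi0, hi⟩ := h1
  have h2 : U.ord b ≤ u.ord (q j) := by
    have h3 := hU3 r' β' q (U.ord b) hβ' (Or.inr (by rw [← hbq])) j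
    exact h3.resolve_left hj
  refine ⟨p i / q j, Finset.mem_image.2 ⟨i, Finset.mem_univ _, rfl⟩, div_ne_zero hi0 hj, ?_⟩
  rw [u.ord_div hi0 hj, U.ord_div ha0 hb0]
  omega

end

theorem main (h1 : Pool.Agent.W619.Y.S_GAUSS.{u, v}) : Pool.Agent.W619.Y.S_DESCJ.{u, v} := by
  intro k L _ _ _ _ _ M F _ d hM hL hsup y hy t ht E hE0 hE0t hEF hEy S b0 hb0
  classical
  have hT : ∀ s : L, s ≠ 0 → ∃ T : Finset M, ∀ (u : Place k M) (U : Place k L),
      (∀ μ : M, U.ord (μ : L) = u.ord μ) → (∀ β : F, U.ord (β : L) = 0) →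
      (∀ (r : ℕ) (β : Fin r → F) (μ : Fin r → M) (c : ℤ), LinearIndependent k β →
        Ge U c (∑ i, (β i : L) * (μ i : L)) → ∀ i, Ge u c (μ i)) →
      ∃ s' ∈ T, s' ≠ 0 ∧ u.ord s' ≤ U.ord (b0 * s) :=
    fun s hs => exists_low hsup (mul_ne_zero hb0 hs)
  choose! T hT using hT
  refine ⟨S.biUnion T, ?_⟩
  intro m j ω hω r β μ hβ hsum i
  refine ⟨?_, ?_, fun u hu hf => hf.elim⟩
  · intro A D
    have h2 : (Matrix.of fun a b => (∑ c, A a c • D c) (y b)) =
        A * Matrix.of fun a b => D a (y b) := by
      ext a b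
      rw [Matrix.of_apply, Matrix.mul_apply]
      simp only [Matrix.of_apply]
      congr 1
      exact der_sum (L := M) _ _ _ _
    show μ i * (Matrix.of fun a b => (∑ c, A a c • D c) (y b)).det ^ m = _
    rw [h2, Matrix.det_mul]
    ring
  · intro u hu _ D hD
    obtain ⟨U, hU1, hU2, hU3, hU4, hU5⟩ := h1 k L M F d hM hL hsup u
    -- the derivations of `L`
    let D' : Fin (d + 1) → Derivation k L L :=
      Fin.cons (E 0) (fun l => ∑ b, ((D l (y b) : M) : L) • E b.succ)
    let A : Matrix (Fin (d + 1)) (Fin (d + 1)) L :=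
      Matrix.of (Fin.cons (Fin.cons 1 (fun _ => 0))
        (fun l => Fin.cons 0 (fun b => ((D l (y b) : M) : L))))
    have hA : (fun a => ∑ c, A a c • E c) = D' := by
      funext a
      refine Fin.cases ?_ (fun l => ?_) a
      · show ∑ c, (Fin.cons 1 (fun _ => 0) : Fin (d + 1) → L) c • E c = E 0
        rw [Fin.sum_univ_succ]
        simp
      · show ∑ c, (Fin.cons 0 (fun b => ((D l (y b) : M) : L)) : Fin (d + 1) → L) c • E c = _
        rw [Fin.sum_univ_succ]
        simp only [Fin.cons_zero, Fin.cons_succ, zero_smul, zero_add]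
        rfl
    have hdet : A.det = (((Matrix.of fun a b => D a (y b)).det : M) : L) := by
      rw [Matrix.det_succ_row_zero, Fin.sum_univ_succ]
      have h3 : ∀ c : Fin d, A 0 c.succ = 0 := fun c => rfl
      have h4 : A 0 0 = 1 := rfl
      simp only [h3, h4, mul_zero, zero_mul, Finset.sum_const_zero, add_zero, Fin.val_zero,
        pow_zero, one_mul]
      have h5 : ((Matrix.of fun a b => D a (y b)).det : M) = (Matrix.of fun a b => D a (y b)).det :=
        rfl
      have h6 := (algebraMap M L).map_det (Matrix.of fun a b => D a (y b))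
      have h7 : A.submatrix Fin.succ (Fin.succAbove 0) =
          (algebraMap M L).mapMatrix (Matrix.of fun a b => D a (y b)) := by
        ext a b
        rfl
      rw [h7, ← h6]
      rfl
    have hωD : ω D' = (((Matrix.of fun a b => D a (y b)).det : M) : L) ^ m * ω E := by
      rw [← hdet, ← hω.1 A E, hA]
    -- the derivations preserve the valuation ring of `U`
    have hyM : ∀ (l : Fin d) (z : M), D' l.succ (z : L) = ((D l z : M) : L) := by
      intro l z
      refine der_comp (K := M) (L := L) (D l) (D' l.succ) y hy (fun c => ?_) z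
      show (∑ b, ((D l (y b) : M) : L) • E b.succ) ((y c : M) : L) = ((D l (y c) : M) : L)
      rw [der_sum]
      simp only [hEy]
      simp
    have hpres : ∀ a, Pres U (D' a) := by
      intro a
      refine Fin.cases ?_ (fun l => ?_) a
      · refine hU5 _ (fun z _ => ⟨0, ?_, u.reg_zero⟩) (fun β => ?_)
        · show E 0 (z : L) = _
          rw [hE0]; rfl
        · obtain ⟨ρ, -, hρ⟩ := ratio' (k := k) (K := L) (E := F) ht β
          refine ⟨ρ, ?_⟩
          have := hρ (E 0)
          show E 0 (β : L) = _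
          have h8 : E 0 (β : L) = (ρ : L) * E 0 (t : L) := this
          rw [h8, hE0t, mul_one]
      · refine hU5 _ (fun z hz => ⟨D l z, hyM l z, hD l z hz⟩) (fun β => ⟨0, ?_⟩)
        show (∑ b, ((D l (y b) : M) : L) • E b.succ) (β : L) = _
        rw [der_sum]
        simp [hEF]
    have hdom := hω.2.1 U (hU4 hu) (fun h => h) D' hpres
    -- multiply by `b0 ^ j`
    set δ : M := (Matrix.of fun a b => D a (y b)).det with hδ
    have hexp : b0 ^ j * ω D' = ∑ i, (β i : L) * ((μ i * δ ^ m : M) : L) := by
      rw [hωD]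
      calc b0 ^ j * ((δ : L) ^ m * ω E) = (δ : L) ^ m * (b0 ^ j * ω E) := by ring
        _ = _ := by
          rw [hsum, Finset.mul_sum]
          refine Finset.sum_congr rfl fun i _ => ?_
          push_cast; ring
    show Dom u (S.biUnion T) j (μ i * δ ^ m)
    rcases hdom with h0 | ⟨s, hs, hs0, hsU⟩
    · left
      by_contra hne
      have h9 := hU3 r β (fun i => μ i * δ ^ m) (u.ord (μ i * δ ^ m) + 1) hβ
        (by rw [← hexp, h0, mul_zero]; exact Ge.zero) i
      have := h9.resolve_left hne
      omega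
    · obtain ⟨s', hs', hs'0, hle⟩ := hT s hs0 u U hU1 hU2 hU3
      have h9 : Ge U ((j : ℤ) * u.ord s') (b0 ^ j * ω D') := by
        have h10 : Ge U ((j : ℤ) * U.ord s) (ω D') := Or.inr hsU
        have h11 : Ge U ((j : ℤ) * U.ord b0) (b0 ^ j) := Or.inr (by rw [U.ord_pow])
        refine (h11.mul h10).mono ?_
        rw [U.ord_mul hb0 hs0] at hle
        rw [← mul_add]
        exact mul_le_mul_of_nonneg_left hle (by positivity)
      rw [hexp] at h9
      rcases hU3 r β (fun i => μ i * δ ^ m) _ hβ h9 i with h12 | h12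
      · left; exact h12
      · right
        exact ⟨s', Finset.mem_biUnion.2 ⟨s, hs, hs'⟩, hs'0, h12⟩

end Pool.Agent.W735.PG.DESCJ
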